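import Pool.Agent.K3h44.SQ.Stm

/-!
# Finiteness of a Selmer group modulo cubes (brick SEL)

Adapted from the version modulo squares in the starting file `Pool.Agent.H437R2.Man.MWSel`.
-/

set_option autoImplicit false

open IsDedekindDomain NumberField
open scoped nonZeroDivisors

namespace Pool.Agent.K3h66.SQ

open Pool.Agent.K3h44.SQ

/-- every multiset is three times a multiset plus a multiset with multiplicities at most two. -/
lemma multiset_third {α : Type*} [DecidableEq α] (s : Multiset α) :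
    ∃ t d : Multiset α, s = t + t + t + d ∧ ∀ a, d.count a ≤ 2 := by
  induction s using Multiset.induction_on with
  | empty => exact ⟨0, 0, by simp, fun a => by simp⟩
  | cons p s ih =>
    obtain ⟨t, d, hs, hd⟩ := ih
    by_cases hp : d.count p = 2
    · have h1 : Multiset.replicate 2 p ≤ d := Multiset.le_count_iff_replicate_le.1 hp.ge
      obtain ⟨e, he⟩ := Multiset.le_iff_exists_add.1 h1
      refine ⟨p ::ₘ t, e, ?_, fun a => ?_⟩
      · refine Multiset.ext.2 fun a => ?_
        rw [hs, he]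
        by_cases ha : a = p
        · subst ha
          simp only [Multiset.count_cons_self, Multiset.count_add, Multiset.count_replicate_self]
          omega
        · simp only [Multiset.count_cons_of_ne ha, Multiset.count_add]
          rw [Multiset.count_replicate, if_neg (fun h => ha h.symm)]
          omega
      · refine le_trans ?_ (hd a)
        rw [he, Multiset.count_add]
        omega
    · refine ⟨t, p ::ₘ d, ?_, fun a => ?_⟩
      · rw [hs]
        simp only [Multiset.add_cons]
      · by_cases ha : a = p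
        · subst ha
          rw [Multiset.count_cons_self]
          have := hd a
          omega
        · rw [Multiset.count_cons_of_ne ha]
          exact hd a

variable {K : Type} [Field K] [NumberField K]

/-- order of vanishing of a nonzero integer in terms of `normalizedFactors`. -/
lemma val_int (v : HeightOneSpectrum (𝓞 K)) (r : 𝓞 K) (hr : r ≠ 0) :
    v.valuation K (r : K) = WithZero.exp
      (-((UniqueFactorizationMonoid.normalizedFactors (Ideal.span {r})).count v.asIdeal : ℤ)) := by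
  classical
  have h0 : (r : K) = algebraMap (𝓞 K) K r := rfl
  rw [h0, v.valuation_of_algebraMap, v.intValuation_if_neg hr,
    Ideal.count_associates_factors_eq (by simpa using hr) v.isPrime v.ne_bot]

/-- structure of ideals with orders divisible by three away from `S` -/
lemma ideal_third (S : Set (HeightOneSpectrum (𝓞 K))) (hS : S.Finite) :
    ∃ D : Finset (Ideal (𝓞 K)), ∀ I : Ideal (𝓞 K), I ≠ 0 →
      (∀ v : HeightOneSpectrum (𝓞 K), v ∉ S →
        3 ∣ (UniqueFactorizationMonoid.normalizedFactors I).count v.asIdeal) →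
      ∃ d ∈ D, ∃ J : Ideal (𝓞 K), J ≠ 0 ∧ I = J ^ 3 * d := by
  classical
  set S' : Finset (Ideal (𝓞 K)) := hS.toFinset.image (fun v => v.asIdeal) with hS'
  refine ⟨((2 • S'.val).powerset.map Multiset.prod).toFinset, fun I hI hev => ?_⟩
  obtain ⟨t, d, hs, hd⟩ := multiset_third (UniqueFactorizationMonoid.normalizedFactors I)
  have hdS : ∀ p ∈ d, p ∈ S' := by
    intro p hp
    have hpI : p ∈ UniqueFactorizationMonoid.normalizedFactors I := by
      rw [hs]; exact Multiset.mem_add.mpr (Or.inr hp)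
    have hpp : Prime p := UniqueFactorizationMonoid.prime_of_normalized_factor p hpI
    let v : HeightOneSpectrum (𝓞 K) := ⟨p, Ideal.isPrime_of_prime hpp, hpp.ne_zero⟩
    by_contra hn
    have hv : v ∉ S := by
      intro hv
      apply hn
      rw [hS', Finset.mem_image]
      exact ⟨v, by simpa using hv, rfl⟩
    have h1 := hev v hv
    rw [hs] at h1
    have h2 : 0 < Multiset.count p d := Multiset.count_pos.2 hp
    have h2' := hd p
    have h3 : Multiset.count v.asIdeal (t + t + t + d) = 3 * Multiset.count p t +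
        Multiset.count p d := by
      change Multiset.count p (t + t + t + d) = _
      rw [Multiset.count_add, Multiset.count_add, Multiset.count_add]
      ring
    rw [h3] at h1
    omega
  refine ⟨d.prod, ?_, t.prod, ?_, ?_⟩
  · rw [Multiset.mem_toFinset, Multiset.mem_map]
    refine ⟨d, ?_, rfl⟩
    rw [Multiset.mem_powerset, Multiset.le_iff_count]
    intro p
    rw [Multiset.count_nsmul]
    by_cases hp : p ∈ d
    · have h1 : Multiset.count p S'.val = 1 := Multiset.count_eq_one_of_mem S'.nodup (hdS p hp)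
      rw [h1]
      have := hd p
      omega
    · rw [Multiset.count_eq_zero_of_notMem hp]
      exact Nat.zero_le _
  · intro h0
    rw [Multiset.prod_eq_zero_iff] at h0
    have : (0 : Ideal (𝓞 K)) ∈ UniqueFactorizationMonoid.normalizedFactors I := by
      rw [hs]
      exact Multiset.mem_add.mpr (Or.inl (Multiset.mem_add.mpr (Or.inl
        (Multiset.mem_add.mpr (Or.inl h0)))))
    exact (UniqueFactorizationMonoid.prime_of_normalized_factor _ this).ne_zero rfl
  · have h2 : (UniqueFactorizationMonoid.normalizedFactors I).prod = I := by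
      have := UniqueFactorizationMonoid.prod_normalizedFactors hI
      exact associated_iff_eq.mp this
    conv_lhs => rw [← h2, hs]
    rw [Multiset.prod_add, Multiset.prod_add, Multiset.prod_add]
    ring

/-- finiteness of units modulo cubes -/
lemma units_cube (K : Type) [Field K] [NumberField K] :
    ∃ T : Finset (𝓞 K)ˣ, ∀ u : (𝓞 K)ˣ, ∃ t ∈ T, ∃ w : (𝓞 K)ˣ, u = t * w ^ 3 := by
  classical
  have : Group.FG (𝓞 K)ˣ := Group.fg_iff_monoid_fg.mpr inferInstance
  have h := Subgroup.finiteIndex_range_powMonoidHom_of_fg (𝓞 K)ˣ (n := 3) (by norm_num)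
  have : Finite ((𝓞 K)ˣ ⧸ (powMonoidHom (α := (𝓞 K)ˣ) 3).range) :=
    Subgroup.finite_quotient_of_finiteIndex
  have := Fintype.ofFinite ((𝓞 K)ˣ ⧸ (powMonoidHom (α := (𝓞 K)ˣ) 3).range)
  refine ⟨Finset.univ.image (fun q : (𝓞 K)ˣ ⧸ (powMonoidHom (α := (𝓞 K)ˣ) 3).range => q.out),
    fun u => ?_⟩
  refine ⟨(QuotientGroup.mk (s := (powMonoidHom (α := (𝓞 K)ˣ) 3).range) u).out,
    Finset.mem_image_of_mem _ (Finset.mem_univ _), ?_⟩
  have h1 : QuotientGroup.mk (s := (powMonoidHom (α := (𝓞 K)ˣ) 3).range)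
      (QuotientGroup.mk (s := (powMonoidHom (α := (𝓞 K)ˣ) 3).range) u).out =
      QuotientGroup.mk u := QuotientGroup.out_eq' _
  rw [QuotientGroup.eq] at h1
  obtain ⟨w, hw⟩ := h1
  refine ⟨w, ?_⟩
  rw [powMonoidHom_apply] at hw
  rw [hw, mul_inv_cancel_left]

/-- integral version of the finiteness of `K(S,3)`. -/
lemma sel_int (S : Set (HeightOneSpectrum (𝓞 K))) (hS : S.Finite) :
    ∃ T : Finset (𝓞 K), (∀ t ∈ T, t ≠ 0) ∧ ∀ a : 𝓞 K, a ≠ 0 →
      (∀ v : HeightOneSpectrum (𝓞 K), v ∉ S →
        3 ∣ (UniqueFactorizationMonoid.normalizedFactors (Ideal.span {a})).count v.asIdeal) →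
      ∃ t ∈ T, ∃ x y : 𝓞 K, x ≠ 0 ∧ y ≠ 0 ∧ x ^ 3 * a = t * y ^ 3 := by
  classical
  obtain ⟨D, hD⟩ := ideal_third S hS
  obtain ⟨U, hU⟩ := units_cube K
  -- the relation between integers and (ideal, class)
  let Rel : Ideal (𝓞 K) × ClassGroup (𝓞 K) → 𝓞 K → Prop := fun c a =>
    a ≠ 0 ∧ ∃ J : (Ideal (𝓞 K))⁰, Ideal.span {a} = (J : Ideal (𝓞 K)) ^ 3 * c.1 ∧
      ClassGroup.mk0 J = c.2
  let rep : Ideal (𝓞 K) × ClassGroup (𝓞 K) → 𝓞 K := fun c =>
    if h : ∃ a, Rel c a then Classical.choose h else 1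
  have hrep0 : ∀ c, rep c ≠ 0 := by
    intro c
    simp only [rep]
    split_ifs with h
    · exact (Classical.choose_spec h).1
    · exact one_ne_zero
  let T : Finset (𝓞 K) := ((D ×ˢ (Finset.univ : Finset (ClassGroup (𝓞 K)))) ×ˢ U).image
    (fun c => rep c.1 * (c.2 : 𝓞 K))
  refine ⟨T, ?_, ?_⟩
  · intro t ht
    simp only [T, Finset.mem_image] at ht
    obtain ⟨c, -, rfl⟩ := ht
    exact mul_ne_zero (hrep0 _) (Units.ne_zero _)
  · intro a ha hev
    have hI : Ideal.span {a} ≠ (0 : Ideal (𝓞 K)) := by simpa using ha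
    obtain ⟨d, hd, J, hJ, hIJ⟩ := hD _ hI hev
    set J' : (Ideal (𝓞 K))⁰ := ⟨J, mem_nonZeroDivisors_iff_ne_zero.mpr hJ⟩ with hJ'
    have hR : Rel (d, ClassGroup.mk0 J') a := ⟨ha, J', hIJ, rfl⟩
    have hex : ∃ a, Rel (d, ClassGroup.mk0 J') a := ⟨a, hR⟩
    have hrepe : rep (d, ClassGroup.mk0 J') = Classical.choose hex := by
      simp only [rep]
      rw [dif_pos hex]
    obtain ⟨hb0, J2, hJ2, hcl⟩ := Classical.choose_spec hex
    rw [← hrepe] at hb0 hJ2
    set b := rep (d, ClassGroup.mk0 J') with hb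
    obtain ⟨x, y, hx, hy, hxy⟩ := ClassGroup.mk0_eq_mk0_iff.mp hcl
    -- x J2 = y J
    have h1 : Ideal.span {y ^ 3 * a} = Ideal.span {x ^ 3 * b} := by
      rw [← Ideal.span_singleton_mul_span_singleton, ← Ideal.span_singleton_mul_span_singleton,
        ← Ideal.span_singleton_pow, ← Ideal.span_singleton_pow, hIJ, hJ2]
      have h2 : (Ideal.span {y} * (J' : Ideal (𝓞 K))) = Ideal.span {x} * (J2 : Ideal (𝓞 K)) :=
        hxy.symm
      calc Ideal.span {y} ^ 3 * (J ^ 3 * d) = (Ideal.span {y} * J) ^ 3 * d := by ring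
        _ = (Ideal.span {x} * (J2 : Ideal (𝓞 K))) ^ 3 * d := by rw [← h2]
        _ = _ := by ring
    rw [Ideal.span_singleton_eq_span_singleton] at h1
    obtain ⟨u, hu⟩ := h1.symm
    obtain ⟨t, ht, w, hw⟩ := hU u
    refine ⟨b * (t : 𝓞 K), ?_, y, x * (w : 𝓞 K), hy, mul_ne_zero hx (Units.ne_zero _), ?_⟩
    · simp only [T, Finset.mem_image]
      refine ⟨((d, ClassGroup.mk0 J'), t), ?_, rfl⟩
      simp only [Finset.mem_product, Finset.mem_univ, and_true]
      exact ⟨hd, ht⟩
    · rw [← hu, hw]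
      push_cast
      ring

theorem t_SEL : S_SEL := by
  classical
  intro K _ _ M hM
  have hM0 : (M : 𝓞 K) ≠ 0 := by exact_mod_cast hM
  have hfin : {v : HeightOneSpectrum (𝓞 K) | (M : 𝓞 K) ∈ v.asIdeal}.Finite := by
    refine (Ideal.finite_factors (I := Ideal.span {(M : 𝓞 K)}) (by simpa using hM0)).subset ?_
    intro v hv
    exact Ideal.dvd_span_singleton.2 hv
  obtain ⟨T, hT0, hT⟩ := sel_int {v : HeightOneSpectrum (𝓞 K) | (M : 𝓞 K) ∈ v.asIdeal} hfin
  refine ⟨T.image (fun t : 𝓞 K => ((t : K) ^ 2)⁻¹), ?_, ?_⟩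
  · intro η hη
    obtain ⟨t, ht, rfl⟩ := Finset.mem_image.1 hη
    have h1 : (t : K) ≠ 0 := by
      have := hT0 t ht
      exact_mod_cast this
    exact inv_ne_zero (pow_ne_zero 2 h1)
  · intro α hα hv
    obtain ⟨t, ht, x, y, hx, hy, hxy⟩ := hT α hα (fun v hvS => by
      obtain ⟨n, hn⟩ := hv v hvS
      rw [val_int v α hα] at hn
      have h1 := WithZero.exp_injective hn
      omega)
    have ht0 : (t : K) ≠ 0 := by
      have := hT0 t ht
      exact_mod_cast this
    have hx0 : (x : K) ≠ 0 := by exact_mod_cast hx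
    have hxyK : (x : K) ^ 3 * (α : K) = (t : K) * (y : K) ^ 3 := by exact_mod_cast congrArg (fun z : 𝓞 K => (z : K)) hxy
    -- the element β = t y / x
    have h1 : ((t : K) * ((y : K) / (x : K))) ^ 3 = ((t ^ 2 * α : 𝓞 K) : K) := by
      push_cast
      field_simp
      linear_combination (-1 : K) * hxyK
    have h2 : IsIntegral ℤ ((t : K) * ((y : K) / (x : K))) := by
      refine IsIntegral.of_pow (n := 3) (by norm_num) ?_
      rw [h1]
      exact RingOfIntegers.isIntegral_coe _
    refine ⟨_, Finset.mem_image_of_mem _ ht, ⟨(t : K) * ((y : K) / (x : K)), h2⟩, ?_⟩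
    change (α : K) = ((t : K) ^ 2)⁻¹ * ((t : K) * ((y : K) / (x : K))) ^ 3
    rw [h1]
    push_cast
    field_simp

end Pool.Agent.K3h66.SQ
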